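import Pool.Agent.Helper639.Tk.TukDefs

/-!
# Asymptotic structures and their Tukey reductions
-/

open Set Filter Topology
open scoped Pointwise

namespace Pool.Agent.U243.AK

open Pool.Agent.Helper639.Tk

/-- An asymptotic structure on `P`: relations `≤_t`, `t > 0`, which are reflexive and increasing in
`t`, and whose intersection is a partial order. -/
structure Asymp (P : Type*) where
  /-- the relation `p ≤_t q` -/
  rel : ℝ → P → P → Prop
  refl : ∀ t, 0 < t → ∀ p, rel t p p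
  mono : ∀ t s, 0 < t → t < s → ∀ p q, rel t p q → rel s p q
  trans : ∀ p q r, (∀ t, 0 < t → rel t p q) → (∀ t, 0 < t → rel t q r) → ∀ t, 0 < t → rel t p r
  antisymm : ∀ p q, (∀ t, 0 < t → rel t p q) → (∀ t, 0 < t → rel t q p) → p = q

/-- A partially ordered set as an asymptotic structure: `≤_t` is `≤` for every `t`. -/
def ofPoset (Q : Type*) [PartialOrder Q] : Asymp Q where
  rel _ p q := p ≤ q
  refl _ _ _ := le_rfl
  mono _ _ _ _ _ _ h := h
  trans _ _ _ h1 h2 _ ht := (h1 _ ht).trans (h2 _ ht)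
  antisymm _ _ h1 h2 := le_antisymm (h1 1 one_pos) (h2 1 one_pos)

/-- `P ⪯ Q`: there are maps `f_ε : P → Q` such that for each `ε > 0` some `δ > 0` has the property
that for each `q₀` there is `p₀` with `p ≤_ε p₀` whenever `f_ε p ≤_δ q₀`. -/
def AsympLE {P Q : Type*} (A : Asymp P) (B : Asymp Q) : Prop :=
  ∃ f : ℝ → P → Q, ∀ ε, 0 < ε → ∃ δ, 0 < δ ∧ ∀ q₀ : Q, ∃ p₀ : P, ∀ p : P,
    B.rel δ (f ε p) q₀ → A.rel ε p p₀

/-- Tukey equivalence of asymptotic structures. -/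
def AsympEquiv {P Q : Type*} (A : Asymp P) (B : Asymp Q) : Prop := AsympLE A B ∧ AsympLE B A

theorem AsympLE.trans {P Q R : Type*} {A : Asymp P} {B : Asymp Q} {C : Asymp R}
    (h1 : AsympLE A B) (h2 : AsympLE B C) : AsympLE A C := by
  obtain ⟨f, hf⟩ := h1
  obtain ⟨g, hg⟩ := h2
  choose! δ hδ hf using hf
  refine ⟨fun ε p => g (δ ε) (f ε p), fun ε hε => ?_⟩
  obtain ⟨η, hη, hg⟩ := hg (δ ε) (hδ ε hε)
  refine ⟨η, hη, fun r => ?_⟩
  obtain ⟨q, hq⟩ := hg r
  obtain ⟨p, hp⟩ := hf ε hε q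
  exact ⟨p, fun x hx => hp x (hq _ hx)⟩

theorem weak_closed {E : Type*} [NormedAddCommGroup E] [NormedSpace ℝ E] {K : Set E}
    (hK : IsCompact (toWeakSpace ℝ E '' K)) : IsClosed K := by
  have h1 : IsClosed (toWeakSpace ℝ E '' K) := hK.isClosed
  have h2 : K = (fun x => toWeakSpace ℝ E x) ⁻¹' (toWeakSpace ℝ E '' K) :=
    (Set.preimage_image_eq K (toWeakSpace ℝ E).injective).symm
  rw [h2]
  exact h1.preimage (toWeakSpaceCLM ℝ E).continuous

theorem mem_add_ball {E : Type*} [NormedAddCommGroup E] [NormedSpace ℝ E] {L : Set E} {t : ℝ}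
    (ht : 0 < t) {x : E} :
    x ∈ L + t • Metric.closedBall (0 : E) 1 ↔ ∃ y ∈ L, ‖x - y‖ ≤ t := by
  constructor
  · rintro ⟨y, hy, z, ⟨w, hw, rfl⟩, rfl⟩
    refine ⟨y, hy, ?_⟩
    have hw' : ‖w‖ ≤ 1 := mem_closedBall_zero_iff.1 hw
    show ‖y + t • w - y‖ ≤ t
    rw [add_sub_cancel_left, norm_smul, Real.norm_eq_abs, abs_of_pos ht]
    nlinarith
  · rintro ⟨y, hy, h⟩
    refine ⟨y, hy, x - y, ⟨t⁻¹ • (x - y), ?_, ?_⟩, ?_⟩
    · rw [mem_closedBall_zero_iff, norm_smul, Real.norm_eq_abs, abs_of_pos (by positivity)]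
      rw [inv_mul_le_iff₀ ht]
      linarith
    · show t • t⁻¹ • (x - y) = x - y
      rw [smul_smul, mul_inv_cancel₀ ht.ne', one_smul]
    · show y + (x - y) = x
      abel

theorem sub_of_forall {E : Type*} [NormedAddCommGroup E] [NormedSpace ℝ E] {K L : Set E}
    (hL : IsCompact (toWeakSpace ℝ E '' L))
    (h : ∀ t : ℝ, 0 < t → K ⊆ L + t • Metric.closedBall (0 : E) 1) : K ⊆ L := by
  intro x hx
  have hc := weak_closed hL
  rw [← hc.closure_eq, Metric.mem_closure_iff]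
  intro ε hε
  obtain ⟨y, hy, hxy⟩ := (mem_add_ball (half_pos hε)).1 (h (ε / 2) (half_pos hε) hx)
  refine ⟨y, hy, ?_⟩
  rw [dist_eq_norm]
  linarith

/-- The asymptotic structure `AK(B_E)`: the weakly compact subsets of the closed unit ball `B_E` of
`E` with the relations `K ≤_ε L ↔ K ⊆ L + ε B_E`. -/
def AKB (E : Type*) [NormedAddCommGroup E] [NormedSpace ℝ E] : Asymp (KB E) where
  rel ε K L := K.1 ⊆ L.1 + ε • Metric.closedBall (0 : E) 1
  refl t ht K := fun x hx => (mem_add_ball ht).2 ⟨x, hx, by rw [sub_self, norm_zero]; exact ht.le⟩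
  mono t s ht hts K L h := fun x hx => by
    obtain ⟨y, hy, hxy⟩ := (mem_add_ball ht).1 (h hx)
    exact (mem_add_ball (ht.trans hts)).2 ⟨y, hy, hxy.trans hts.le⟩
  trans K L M h1 h2 t ht := fun x hx => by
    have h3 := sub_of_forall L.2.2 h1
    exact h2 t ht (h3 hx)
  antisymm K L h1 h2 := Subtype.ext
    (Set.Subset.antisymm (sub_of_forall L.2.2 h1) (sub_of_forall K.2.2 h2))

end Pool.Agent.U243.AK
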