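import Pool.Agent.U243.AK.Main

/-!
# Strongly weakly compactly generated spaces and the reduction of `AK(B_X)` to `ω`
-/

open Set Filter Topology
open scoped Pointwise

namespace Pool.Agent.U243.AK

open Pool.Agent.Helper639.Tk

/-- A map `f : U → V` between sets with relations is Tukey if for each `v₀` there is `u₀` such that
`f u S v₀` implies `u R u₀`. -/
def IsTukey {U V : Type*} (R : U → U → Prop) (S : V → V → Prop) (f : U → V) : Prop :=
  ∀ v₀ : V, ∃ u₀ : U, ∀ u : U, S (f u) v₀ → R u u₀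

/-- The relation `L ≤_ε K`, that is `L ⊆ K + ε B_X`, on the weakly compact subsets of `B_X`. -/
def leE {X : Type*} [NormedAddCommGroup X] [NormedSpace ℝ X] (ε : ℝ) (L K : KB X) : Prop :=
  L.1 ⊆ K.1 + ε • Metric.closedBall (0 : X) 1

/-- `AK(B_X) ⪯ Q`: for every `ε > 0` there is a Tukey function `(K(B_X), ≤_ε) → (Q, ≤)`. -/
def AKLe (X : Type*) [NormedAddCommGroup X] [NormedSpace ℝ X] (Q : Type*) [PartialOrder Q] : Prop :=
  ∀ ε : ℝ, 0 < ε → ∃ f : KB X → Q, IsTukey (leE ε) (fun a b => a ≤ b) f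

/-- `Q ⪯ AK(B_X)`: for some `δ > 0` there is a Tukey function `(Q, ≤) → (K(B_X), ≤_δ)`. -/
def LeAK (Q : Type*) [PartialOrder Q] (X : Type*) [NormedAddCommGroup X] [NormedSpace ℝ X] : Prop :=
  ∃ δ : ℝ, 0 < δ ∧ ∃ f : Q → KB X, IsTukey (fun a b => a ≤ b) (leE δ) f

/-- `X` is strongly weakly compactly generated: some weakly compact `K` has the property that for
all `ε > 0` and weakly compact `L` there is `n` with `L ⊆ n K + ε B_X`. -/
def SWCG (X : Type*) [NormedAddCommGroup X] [NormedSpace ℝ X] : Prop :=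
  ∃ K : Set X, IsCompact (toWeakSpace ℝ X '' K) ∧ ∀ ε : ℝ, 0 < ε → ∀ L : Set X,
    IsCompact (toWeakSpace ℝ X '' L) → ∃ n : ℕ, L ⊆ (n : ℝ) • K + ε • Metric.closedBall (0 : X) 1

theorem AKLe.asymp {X : Type*} [NormedAddCommGroup X] [NormedSpace ℝ X] {Q : Type*}
    [PartialOrder Q] (h : AKLe X Q) : AsympLE (AKB X) (ofPoset Q) := by
  classical
  by_cases hQ : Nonempty Q
  · obtain ⟨q⟩ := hQ
    have : Nonempty (KB X → Q) := ⟨fun _ => q⟩
    choose! f hf using h
    exact ⟨f, fun ε hε => ⟨1, one_pos, hf ε hε⟩⟩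
  · obtain ⟨f, -⟩ := h 1 one_pos
    exact absurd ⟨f ⟨∅, empty_subset _, by simp⟩⟩ hQ

theorem LeAK.asymp {X : Type*} [NormedAddCommGroup X] [NormedSpace ℝ X] {Q : Type*}
    [PartialOrder Q] (h : LeAK Q X) : AsympLE (ofPoset Q) (AKB X) := by
  obtain ⟨δ, hδ, f, hf⟩ := h
  exact ⟨fun _ => f, fun ε _ => ⟨δ, hδ, hf⟩⟩

theorem wc_smul {E : Type*} [NormedAddCommGroup E] [NormedSpace ℝ E] {K : Set E}
    (hK : IsCompact (toWeakSpace ℝ E '' K)) (c : ℝ) : IsCompact (toWeakSpace ℝ E '' (c • K)) := by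
  have h1 : toWeakSpace ℝ E '' (c • K) = (fun z => c • z) '' (toWeakSpace ℝ E '' K) := by
    rw [← Set.image_smul, Set.image_image, Set.image_image]
    refine Set.image_congr fun x _ => ?_
    exact map_smul _ _ _
  rw [h1]
  exact hK.image (continuous_const_smul c)

theorem ball_closed {E : Type*} [NormedAddCommGroup E] [NormedSpace ℝ E] :
    IsClosed (toWeakSpace ℝ E '' Metric.closedBall (0 : E) 1) := by
  have h := (convex_closedBall (0 : E) 1).toWeakSpace_closure ℝ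
  rw [Metric.isClosed_closedBall.closure_eq] at h
  rw [h]
  exact isClosed_closure

theorem wc_inter_ball {E : Type*} [NormedAddCommGroup E] [NormedSpace ℝ E] {K : Set E}
    (hK : IsCompact (toWeakSpace ℝ E '' K)) :
    IsCompact (toWeakSpace ℝ E '' (K ∩ Metric.closedBall (0 : E) 1)) := by
  rw [Set.image_inter (toWeakSpace ℝ E).injective]
  exact hK.inter_right ball_closed

/-- In a strongly weakly compactly generated space `AK(B_X) ⪯ ω`. -/
theorem SWCG.akLe {E : Type*} [NormedAddCommGroup E] [NormedSpace ℝ E] (h : SWCG E) :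
    AKLe E ℕ := by
  obtain ⟨K₀, hK₀, h⟩ := h
  intro ε hε
  have h2 : 0 < ε / 2 := by positivity
  have hn : ∀ K : KB E, ∃ n : ℕ, K.1 ⊆ (n : ℝ) • K₀ + (ε / 2) • Metric.closedBall (0 : E) 1 :=
    fun K => h (ε / 2) h2 K.1 K.2.2
  choose f hf using hn
  refine ⟨f, fun n => ?_⟩
  set r : ℝ := 1 / (1 + ε / 2) with hr
  have hr0 : 0 < r := by positivity
  have hcomp : IsCompact (toWeakSpace ℝ E ''
      (⋃ k ∈ Finset.range (n + 1), ((r * (k : ℝ)) • K₀) ∩ Metric.closedBall (0 : E) 1)) := by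
    rw [Set.image_iUnion₂]
    exact (Finset.range (n + 1)).isCompact_biUnion fun k _ => wc_inter_ball (wc_smul hK₀ _)
  refine ⟨⟨_, ?_, hcomp⟩, ?_⟩
  · exact iUnion₂_subset fun k _ => inter_subset_right
  · intro K hK x hx
    replace hK : f K ≤ n := hK
    obtain ⟨y, hy, hxy⟩ := (mem_add_ball h2).1 (hf K hx)
    obtain ⟨a, ha, rfl⟩ := hy
    have hx1 : ‖x‖ ≤ 1 := mem_closedBall_zero_iff.1 (K.2.1 hx)
    have hy1 : ‖(f K : ℝ) • a‖ ≤ 1 + ε / 2 := by
      have h3 : (f K : ℝ) • a = x - (x - (f K : ℝ) • a) := by abel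
      rw [h3]
      exact (norm_sub_le _ _).trans (add_le_add hx1 hxy)
    refine (mem_add_ball hε).2 ⟨r • ((f K : ℝ) • a), ?_, ?_⟩
    · refine mem_iUnion₂.2 ⟨f K, Finset.mem_range.2 (Nat.lt_succ_of_le hK), ?_, ?_⟩
      · refine ⟨a, ha, ?_⟩
        show (r * (f K : ℝ)) • a = _
        rw [mul_smul]
      · rw [mem_closedBall_zero_iff, norm_smul, Real.norm_eq_abs, abs_of_pos hr0]
        calc r * ‖(f K : ℝ) • a‖ ≤ r * (1 + ε / 2) := by gcongr
          _ = 1 := by rw [hr]; field_simp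
    · have h4 : x - r • ((f K : ℝ) • a) = (x - (f K : ℝ) • a) + (1 - r) • ((f K : ℝ) • a) := by
        rw [sub_smul, one_smul]
        abel
      have h5 : 0 ≤ 1 - r := by
        have : r ≤ 1 := by
          rw [hr, div_le_one (by positivity)]
          linarith
        linarith
      rw [h4]
      refine (norm_add_le _ _).trans ?_
      rw [norm_smul, Real.norm_eq_abs, abs_of_nonneg h5]
      have h6 : (1 - r) * ‖(f K : ℝ) • a‖ ≤ (1 - r) * (1 + ε / 2) := by gcongr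
      have h7 : (1 - r) * (1 + ε / 2) = ε / 2 := by
        rw [hr]
        field_simp
        ring
      show ‖x - (f K : ℝ) • a‖ + _ ≤ ε
      linarith [hxy]

/-- If `ω^ω` has no cofinal subset of cardinality `≤ ℵ₁` then `ω^ω` is not below `[C]^{<ω}`,
`|C| = ℵ₁`. -/
theorem not_nat_le {C : Type} (h1 : Cardinal.mk C = Cardinal.aleph 1)
    (h2 : ∀ F : Set (ℕ → ℕ), Cardinal.mk F ≤ Cardinal.aleph 1 → ∃ p : ℕ → ℕ, ∀ q ∈ F, ¬ p ≤ q) :
    ¬ AsympLE (ofPoset (ℕ → ℕ)) (ofPoset (Finset C)) := by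
  rintro ⟨f, hf⟩
  obtain ⟨δ, -, h⟩ := hf 1 one_pos
  choose g hg using h
  have : Infinite C := by
    rw [Cardinal.infinite_iff, h1]
    exact Cardinal.aleph0_le_aleph 1
  obtain ⟨p, hp⟩ := h2 (Set.range g) (by
    refine Cardinal.mk_range_le.trans ?_
    rw [Cardinal.mk_finset_of_infinite, h1])
  exact hp (g (f 1 p)) ⟨_, rfl⟩ (hg (f 1 p) p (le_refl (f 1 p)))

end Pool.Agent.U243.AK
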