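import Pool.Agent.U243.AK.Defs
import Pool.Agent.Helper639.Tk.TukeyType
import Pool.Agent.Helper639.Tk.NotLe1
import Pool.Agent.Helper639.Tk.CompQ
import Pool.Agent.Helper639.Tk.Conv
import Pool.Agent.Helper639.Tk.Separable

/-!
# The asymptotic Tukey type of the weakly compact sets of the Tsirelson type space of a coanalytic set

For the space `X` of `Pool.Agent.Helper639.Tk` attached to a continuous surjection `φ` of the Baire
space onto the complement of `C`, with `C` infinite and `|C| < 𝔠`, the asymptotic structure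
`AK(B_X)` is Tukey equivalent to the poset `[C]^{<ω}` of finite subsets of `C`.
-/

open Set Filter Topology
open scoped Pointwise

namespace Pool.Agent.U243.AK

open Pool.Agent.Helper639.Tk

variable {φ : (ℕ → ℕ) → (ℕ → Bool)}

theorem akb_rel {E : Type*} [NormedAddCommGroup E] [NormedSpace ℝ E] {ε : ℝ} (hε : 0 < ε)
    {K L : KB E} : (AKB E).rel ε K L ↔ ∀ x ∈ K.1, ∃ y ∈ L.1, ‖x - y‖ ≤ ε :=
  ⟨fun h _ hx => (mem_add_ball hε).1 (h hx), fun h x hx => (mem_add_ball hε).2 (h x hx)⟩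

open Classical in
theorem core1 (E : Finset (ℕ → Bool)) (n : ℕ) {δ : ℝ} (f : X φ) (hf1 : ‖f‖ ≤ 1)
    (hb : ∀ g, L φ g → (∀ s ∈ g.support, n < s.length ∧ ∀ x ∈ E, ¬ Helper639.Tk.Ext s x) →
          |ev g (co f)| ≤ δ) :
    ∃ h ∈ W φ (fun _ => E) (fun _ => n), ‖f - h‖ ≤ δ := by
  obtain ⟨h, hh, hn⟩ := W_compact_restrict f
    (fun s => ¬ (n < s.length ∧ ∀ x ∈ E, ¬ Helper639.Tk.Ext s x))
  refine ⟨h, ⟨hn.trans hf1, ?_⟩, ?_⟩
  · intro j g hg hs
    have h0 : ev g (co h) = ev g (fun _ => 0) := by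
      refine ev_congr g fun s hsg => ?_
      rw [hh]
      exact if_neg (not_not.2 (hs s hsg))
    have h1 : ev g (fun _ => 0) = 0 := by simp [ev]
    rw [h0, h1, abs_zero]
    positivity
  · apply norm_le_of
    intro g hg
    have h3 : co (f - h) = fun s =>
        if (n < s.length ∧ ∀ x ∈ E, ¬ Helper639.Tk.Ext s x) then co f s else 0 := by
      rw [co_sub, hh]
      ext s
      simp only [Pi.sub_apply]
      by_cases hc : (n < s.length ∧ ∀ x ∈ E, ¬ Helper639.Tk.Ext s x)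
      · rw [if_pos hc, if_neg (not_not.2 hc), sub_zero]
      · rw [if_neg hc, if_pos hc, sub_self]
    rw [h3, ← ev_filter]
    apply hb _ (L_filter hg _)
    intro s hsg
    rw [Finsupp.support_filter, Finset.mem_filter] at hsg
    exact hsg.2

theorem core2 {E : Finset (ℕ → Bool)} {l : ℕ} {K : Set (X φ)}
    (hEl : ∀ f ∈ K, ∀ g, L φ g →
      (∀ s ∈ g.support, l < s.length ∧ ∀ x ∈ E, ¬ Helper639.Tk.Ext s x) → |ev g (co f)| ≤ 1 / 4)
    {D : Finset (ℕ → Bool)}
    (hD : ∀ f ∈ W φ (fun _ => D) (fun _ => 0), ∃ y ∈ K, ‖f - y‖ ≤ 1 / 4) : D ⊆ E := by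
  intro x hx
  by_contra hxE
  have hk : ∀ y ∈ E, ∃ k, y k ≠ x k := by
    intro y hy
    by_contra hc
    push Not at hc
    exact hxE (by rwa [← (funext hc : y = x)])
  choose! k hk using hk
  obtain ⟨n, hn1, hn2⟩ : ∃ n, l < n ∧ ∀ y ∈ E, k y < n := by
    refine ⟨l + 1 + ∑ y ∈ E, (k y + 1), by omega, ?_⟩
    intro y hy
    have h5 : k y + 1 ≤ ∑ y ∈ E, (k y + 1) :=
      Finset.single_le_sum (f := fun y => k y + 1) (fun _ _ => Nat.zero_le _) hy
    omega
  set s : T := PiNat.res x n with hs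
  have hslen : s.length = n := PiNat.res_length _ _
  have hsx : Helper639.Tk.Ext s x := by
    unfold Helper639.Tk.Ext
    rw [hslen]
  have hsE : ∀ y ∈ E, ¬ Helper639.Tk.Ext s y := by
    intro y hy h
    unfold Helper639.Tk.Ext at h
    rw [hslen, hs, PiNat.res_eq_res] at h
    exact hk y hy (h (hn2 y hy))
  have hfW : e φ s ∈ W φ (fun _ => D) (fun _ => 0) := by
    refine ⟨?_, ?_⟩
    · apply norm_le_of
      intro g hg
      rw [ev_e781 hg]
      exact L_abs_le hg s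
    · intro j g hg hgs
      have : g s = 0 := by
        by_contra hne
        exact (hgs s (Finsupp.mem_support_iff.2 hne)).2 x hx hsx
      rw [ev_e781 hg, this, abs_zero]
      positivity
  obtain ⟨y, hy, hxy⟩ := hD _ hfW
  have hL : L φ (Finsupp.single s 1) := L.base s 1 (by simp)
  have hfin := hEl y hy (Finsupp.single s 1) hL (by
    intro t ht
    have : t = s := by
      have := Finsupp.support_single_subset ht
      simpa using this
    rw [this, hslen]
    exact ⟨hn1, hsE⟩)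
  have h1 := (normLE_co (e φ s - y) (Finsupp.single s 1) hL).trans hxy
  rw [co_sub, ev_sub_right, ev_e781 hL, Finsupp.single_eq_same] at h1
  have h2 := abs_le.1 h1
  have h3 := abs_le.1 hfin
  linarith [h2.1, h2.2, h3.1, h3.2]

/-- the set `W` as an element of `KB` -/
noncomputable def WK (hφ : Continuous φ) (D : Finset ((Set.range φ)ᶜ : Set (ℕ → Bool))) (n : ℕ) :
    KB (X φ) :=
  ⟨W φ (fun _ => D.map ⟨Subtype.val, Subtype.val_injective⟩) (fun _ => n), W_sub_ball781 _ _,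
    W_compact hφ _ _ (by
      intro m x hx
      obtain ⟨y, _, rfl⟩ := Finset.mem_map.1 hx
      exact y.2)⟩

theorem WK_val (hφ : Continuous φ) (D : Finset ((Set.range φ)ᶜ : Set (ℕ → Bool))) (n : ℕ) :
    (WK hφ D n).1 = W φ (fun _ => D.map ⟨Subtype.val, Subtype.val_injective⟩) (fun _ => n) := rfl

open Classical in
/-- `[C]^{<ω} ⪯ AK(B_X)`. -/
theorem le_akb (hφ : Continuous φ)
    (hC : Cardinal.mk ((Set.range φ)ᶜ : Set (ℕ → Bool)) < Cardinal.continuum) :
    AsympLE (ofPoset (Finset ((Set.range φ)ᶜ : Set (ℕ → Bool)))) (AKB (X φ)) := by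
  refine ⟨fun _ D => WK hφ D 0, fun ε hε => ⟨1 / 4, by norm_num, fun K => ?_⟩⟩
  obtain ⟨E, l, hE, hEl⟩ : ∃ (E : Finset (ℕ → Bool)) (l : ℕ), (∀ x ∈ E, x ∉ Set.range φ) ∧
        ∀ a ∈ co '' K.1, ∀ g, L φ g →
          (∀ s ∈ g.support, l < s.length ∧ ∀ x ∈ E, ¬ Helper639.Tk.Ext s x) → |ev g a| ≤ 1 / 4 :=
    star hφ hC (KB_norm781 K) (ul_of_weaklyCompact K.2.2) (by norm_num)
  refine ⟨E.subtype (fun x => x ∈ (Set.range φ)ᶜ), fun D hD => ?_⟩
  have hD' := (akb_rel (by norm_num)).1 hD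
  have h1 : D.map ⟨Subtype.val, Subtype.val_injective⟩ ⊆ E :=
    core2 (fun f hf => hEl (co f) ⟨f, hf, rfl⟩) hD'
  show D ⊆ _
  intro x hx
  rw [Finset.mem_subtype]
  exact h1 (Finset.mem_map.2 ⟨x, hx, rfl⟩)

open Classical in
/-- `AK(B_X) ⪯ [C]^{<ω}`. -/
theorem akb_le (hφ : Continuous φ)
    (hC : Cardinal.mk ((Set.range φ)ᶜ : Set (ℕ → Bool)) < Cardinal.continuum)
    (hinf : ((Set.range φ)ᶜ : Set (ℕ → Bool)).Infinite) :
    AsympLE (AKB (X φ)) (ofPoset (Finset ((Set.range φ)ᶜ : Set (ℕ → Bool)))) := by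
  have hm : ∀ ε : ℝ, ∃ m : ℕ, 0 < ε → 1 / ((m : ℝ) + 1) ≤ ε := by
    intro ε
    by_cases hε : 0 < ε
    · obtain ⟨m, hm⟩ := exists_nat_one_div_lt hε
      exact ⟨m, fun _ => hm.le⟩
    · exact ⟨0, fun h => absurd h hε⟩
  choose m hm using hm
  have hst : ∀ (ε : ℝ) (K : KB (X φ)), ∃ (D : Finset (ℕ → Bool)) (l : ℕ),
      (∀ x ∈ D, x ∉ Set.range φ) ∧ ∀ a ∈ co '' K.1, ∀ g, L φ g →
        (∀ s ∈ g.support, l < s.length ∧ ∀ x ∈ D, ¬ Helper639.Tk.Ext s x) →
          |ev g a| ≤ 1 / ((m ε : ℝ) + 1) := by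
    intro ε K
    exact star hφ hC (KB_norm781 K) (ul_of_weaklyCompact K.2.2) (by positivity)
  choose D l hD hDl using hst
  let c : ℕ ↪ ((Set.range φ)ᶜ : Set (ℕ → Bool)) := hinf.natEmbedding
  refine ⟨fun ε K => (D ε K).subtype (fun x => x ∈ (Set.range φ)ᶜ) ∪
    (Finset.range (l ε K + 1)).map c, fun ε hε => ⟨1, one_pos, fun E => ⟨WK hφ E E.card, ?_⟩⟩⟩
  intro K hK
  replace hK : (D ε K).subtype (fun x => x ∈ (Set.range φ)ᶜ) ∪
    (Finset.range (l ε K + 1)).map c ⊆ E := hK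
  refine (akb_rel hε).2 fun f hf => ?_
  have hf1 : ‖f‖ ≤ 1 := (mcb781 f).1 (K.2.1 hf)
  have hcard : l ε K + 1 ≤ E.card := by
    have h4 : ((Finset.range (l ε K + 1)).map c).card ≤ E.card :=
      Finset.card_le_card ((Finset.subset_union_right).trans hK)
    rwa [Finset.card_map, Finset.card_range] at h4
  have hsub : ∀ x ∈ D ε K, x ∈ E.map ⟨Subtype.val, Subtype.val_injective⟩ := by
    intro x hx
    refine Finset.mem_map.2 ⟨⟨x, hD ε K x hx⟩, hK (Finset.mem_union_left _ ?_), rfl⟩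
    rw [Finset.mem_subtype]
    exact hx
  obtain ⟨h, hh, hn⟩ := core1 (E.map ⟨Subtype.val, Subtype.val_injective⟩) E.card
    (δ := 1 / ((m ε : ℝ) + 1)) f hf1 (fun g hg hs => hDl ε K (co f) ⟨f, hf, rfl⟩ g hg
      fun s hsg => ⟨by have := (hs s hsg).1; omega, fun x hx => (hs s hsg).2 x (hsub x hx)⟩)
  exact ⟨h, hh, hn.trans (hm ε hε)⟩

/-! ### Comparison with the reference posets -/

/-- If every family in `Q` indexed by `C` has an infinite bounded subfamily, then `[C]^{<ω}` is not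
below `Q`. -/
theorem not_le_of_bdd {C : Type} {Q : Type*} [PartialOrder Q]
    (hQ : ∀ f : C → Q, ∃ S : Set C, S.Infinite ∧ BddAbove (f '' S)) :
    ¬ AsympLE (ofPoset (Finset C)) (ofPoset Q) := by
  rintro ⟨f, hf⟩
  obtain ⟨δ, -, h⟩ := hf 1 one_pos
  obtain ⟨S, hS, q, hq⟩ := hQ (fun x => f 1 {x})
  obtain ⟨E, hE⟩ := h q
  apply hS
  apply E.finite_toSet.subset
  intro x hx
  exact Finset.singleton_subset_iff.1 (hE {x} (hq ⟨x, hx, rfl⟩))

/-- If `|C| = ℵ₁ < 𝔠` then `[𝔠]^{<ω}` is not below `[C]^{<ω}`. -/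
theorem not_finset_le {C : Type} (h1 : Cardinal.mk C = Cardinal.aleph 1)
    (h2 : Cardinal.aleph 1 < Cardinal.continuum.{0}) :
    ¬ AsympLE (ofPoset (Finset ℝ)) (ofPoset (Finset C)) := by
  refine not_le_of_bdd fun f => ?_
  have : Infinite C := by
    rw [Cardinal.infinite_iff, h1]
    exact Cardinal.aleph0_le_aleph 1
  have h3 : Cardinal.mk (Finset C) < Cardinal.mk ℝ := by
    rw [Cardinal.mk_finset_of_infinite, h1, Cardinal.mk_real]
    exact h2
  by_contra hcon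
  push Not at hcon
  have hfib : ∀ E : Finset C, (f ⁻¹' {E}).Countable := by
    intro E
    by_contra hE
    refine hcon (f ⁻¹' {E}) (fun hf => hE hf.countable) ⟨E, ?_⟩
    rintro _ ⟨r, hr, rfl⟩
    exact le_of_eq hr
  have h5 : (⋃ E, f ⁻¹' {E}) = (Set.univ : Set ℝ) := by
    ext r
    simp
  have h6 := Cardinal.mk_iUnion_le (fun E : Finset C => f ⁻¹' {E})
  rw [h5, Cardinal.mk_univ, Cardinal.mk_real, Cardinal.mk_finset_of_infinite, h1] at h6
  have h7 : (⨆ E : Finset C, Cardinal.mk (f ⁻¹' {E})) ≤ Cardinal.aleph0 :=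
    ciSup_le' fun E => Cardinal.le_aleph0_iff_set_countable.2 (hfib E)
  have h8 : Cardinal.aleph 1 * (⨆ E : Finset C, Cardinal.mk (f ⁻¹' {E})) ≤ Cardinal.aleph.{0} 1 :=
    calc Cardinal.aleph 1 * (⨆ E : Finset C, Cardinal.mk (f ⁻¹' {E})) ≤
          Cardinal.aleph 1 * Cardinal.aleph0 := by gcongr
      _ = Cardinal.aleph 1 := Cardinal.mul_aleph0_eq (Cardinal.aleph0_le_aleph 1)
  exact absurd (h6.trans h8) (not_le.2 h2)

/-! ### Reflexive spaces -/

/-- The closed unit ball of a reflexive space is weakly compact. -/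
theorem ball_compact {E : Type*} [NormedAddCommGroup E] [NormedSpace ℝ E]
    (hrefl : Function.Surjective (NormedSpace.inclusionInDoubleDual ℝ E)) :
    IsCompact (toWeakSpace ℝ E '' Metric.closedBall (0 : E) 1) := by
  have hcl : IsClosed (toWeakSpace ℝ E '' Metric.closedBall (0 : E) 1) := by
    have h := (convex_closedBall (0 : E) 1).toWeakSpace_closure ℝ
    rw [Metric.isClosed_closedBall.closure_eq] at h
    rw [h]
    exact isClosed_closure
  have := NormedSpace.isCompact_closure_of_isBounded ℝ E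
    (toWeakSpace ℝ E '' Metric.closedBall (0 : E) 1)
    (by
      rw [Set.preimage_image_eq _ (toWeakSpace ℝ E).injective]
      exact Metric.isBounded_closedBall)
    (by
      intro φ _
      obtain ⟨x, hx⟩ := hrefl (WeakDual.toStrongDual φ)
      refine ⟨toWeakSpace ℝ E x, ?_⟩
      refine DFunLike.ext _ _ fun f => ?_
      exact DFunLike.congr_fun hx f)
  rwa [hcl.closure_eq] at this

/-- If `E` is reflexive then `AK(B_E)` is below every poset. -/
theorem akb_le_of_reflexive {E : Type*} [NormedAddCommGroup E] [NormedSpace ℝ E]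
    (hrefl : Function.Surjective (NormedSpace.inclusionInDoubleDual ℝ E)) :
    AsympLE (AKB E) (ofPoset Unit) := by
  refine ⟨fun _ _ => (), fun ε hε => ⟨1, one_pos, fun _ =>
    ⟨⟨Metric.closedBall 0 1, Subset.rfl, ball_compact hrefl⟩, fun K _ => ?_⟩⟩⟩
  show K.1 ⊆ Metric.closedBall 0 1 + ε • Metric.closedBall (0 : E) 1
  intro x hx
  exact (mem_add_ball hε).2 ⟨x, K.2.1 hx, by rw [sub_self, norm_zero]; exact hε.le⟩

end Pool.Agent.U243.AK
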